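import Pool.Agent.H11.OT.OT2
import Pool.Agent.H90.Ord.EMD
import Pool.Agent.H90.Ord.K4Pat
import Pool.Agent.H90.Ord.Big

/-!
# Assembly: from fusion, joint plays and unavoidability to the ordinal `ω^(ω^(ω·2))`

`FusionT`, `JoinT`, `UnavT` are the statements of the three chapters FUS, JOIN, NEG-UN.
-/

set_option autoImplicit false

namespace Pool.Agent.H90.Ord

/-- statement of the chapter FUS -/
def FusionT : Prop :=
  ∀ red : List ℕ → List ℕ → Prop, ¬ Win red start start →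
    ∃ f : V → V, StrictMono f ∧ (∀ x, (f x).1.Pairwise (· < ·)) ∧
      ∀ (x y : V) (a b : ℕ), x.1.head? = some a → y.1.head? = some b → a < b →
        ¬ red (f x).1 (f y).1

/-- statement of the chapters STAT and JOIN -/
def JoinT : Prop :=
  ∀ red : List ℕ → List ℕ → Prop, Win red start start →
    ∃ r1 r2 r3, red r1 r2 ∧ red r1 r3 ∧ red r2 r3

/-- statement of the chapter NEG-UN -/
def UnavT : Prop := ∀ f : VI → VI, StrictMono f → ∃ x y : VI, GI.Adj (f x) (f y)

/-- adjacency of lists -/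
def adjL (G : SimpleGraph V) (r r' : List ℕ) : Prop :=
  ∃ (hx : runS [Lev.root] r = some []) (hy : runS [Lev.root] r' = some []), G.Adj ⟨r, hx⟩ ⟨r', hy⟩

theorem adjL_iff (G : SimpleGraph V) (x y : V) : adjL G x.1 y.1 ↔ G.Adj x y :=
  ⟨fun ⟨_, _, h⟩ => h, fun h => ⟨x.2, y.2, h⟩⟩

theorem not_triangle {α : Type} {G : SimpleGraph α} (hG : G.CliqueFree 3) {a b c : α}
    (h1 : G.Adj a b) (h2 : G.Adj a c) (h3 : G.Adj b c) : False := by
  classical
  refine hG {a, b, c} ?_
  rw [SimpleGraph.is3Clique_iff]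
  exact ⟨a, b, c, h1, h2, h3, rfl⟩

theorem head_ne (x y : V) (h : x.1.head? ≠ y.1.head?) :
    ∃ a b, x.1.head? = some a ∧ y.1.head? = some b ∧ (a < b ∨ b < a) := by
  obtain ⟨n, r, hx, _⟩ := single_mem (l := Lev.root) x.2
  obtain ⟨m, s, hy, _⟩ := single_mem (l := Lev.root) y.2
  rw [hx, hy] at h
  refine ⟨n, m, by rw [hx]; rfl, by rw [hy]; rfl, ?_⟩
  simp only [List.head?_cons, ne_eq, Option.some.injEq] at h
  exact Nat.lt_or_gt_of_ne h

/-- the positive relation on `V` -/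
theorem positive (hF : FusionT) (hJ : JoinT) (G : SimpleGraph V) (hG : G.CliqueFree 3) :
    ∃ f : V → V, StrictMono f ∧ ∀ x y, ¬ G.Adj (f x) (f y) := by
  have hW : ¬ Win (adjL G) start start := by
    intro h
    obtain ⟨r1, r2, r3, ⟨h1, h2, h12⟩, ⟨_, h3, h13⟩, ⟨_, _, h23⟩⟩ := hJ _ h
    exact not_triangle hG h12 h13 h23
  obtain ⟨f, hf, _, hred⟩ := hF _ hW
  have hred' : ∀ (x y : V) (a b : ℕ), x.1.head? = some a → y.1.head? = some b → a < b →
      ¬ G.Adj (f x) (f y) := by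
    intro x y a b h1 h2 hab hadj
    exact hred x y a b h1 h2 hab ((adjL_iff G _ _).2 hadj)
  let G' : SimpleGraph V :=
    { Adj := fun x y => G.Adj (f x) (f y)
      symm := ⟨fun _ _ h => h.symm⟩
      loopless := ⟨fun x h => G.ne_of_adj h rfl⟩ }
  have hG' : G'.CliqueFree 3 := by
    intro s hs
    rw [SimpleGraph.is3Clique_iff] at hs
    obtain ⟨a, b, c, h1, h2, h3, _⟩ := hs
    exact not_triangle hG h1 h2 h3
  obtain ⟨g, hg, hgi⟩ := em_all G' hG' (by
    intro x y hne hadj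
    obtain ⟨a, b, h1, h2, h | h⟩ := head_ne x y hne
    · exact hred' x y a b h1 h2 h hadj
    · exact hred' y x b a h2 h1 h hadj.symm)
  exact ⟨fun x => f (g x), fun x y hxy => hf (hg hxy), hgi⟩

theorem win_false {red : List ℕ → List ℕ → Prop} {a b : St} (h : Win red a b) :
    ∃ r r', red r r' := by
  induction h with
  | done _ _ h => exact ⟨_, _, h⟩
  | pickA _ _ _ _ _ ih => exact ih
  | pickB _ _ _ _ _ _ ih => exact ih
  | stepA T _ _ hT _ ih =>
      obtain ⟨l, hl, _⟩ := big_nonempty hT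
      exact ih l hl
  | stepB T _ _ hT _ ih =>
      obtain ⟨l, hl, _⟩ := big_nonempty hT
      exact ih l hl

theorem V_iso_VI (hF : FusionT) : Nonempty (V ≃o VI) := by
  have hW : ¬ Win (fun _ _ => False) start start := by
    intro h
    obtain ⟨_, _, hr⟩ := win_false h
    exact hr
  obtain ⟨f, hf, hinc, _⟩ := hF _ hW
  refine iso_of_emb (fun x : V => (⟨(f x).1, (f x).2, hinc x⟩ : VI)) ?_
    (fun x : VI => (⟨x.1, x.2.1⟩ : V)) ?_
  · intro x y hxy
    exact hf hxy
  · intro x y hxy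
    exact hxy

/-- transfer of an independent copy to an isomorphic order -/
theorem transfer_pos {α β : Type} [LinearOrder α] [LinearOrder β] (e : α ≃o β)
    (hβ : ∀ G : SimpleGraph β, G.CliqueFree 3 →
      ∃ f : β → β, StrictMono f ∧ ∀ x y, ¬ G.Adj (f x) (f y))
    (G : SimpleGraph α) (hG : G.CliqueFree 3) :
    ∃ S : Set α, G.IsIndepSet S ∧ Nonempty (α ≃o S) := by
  let G' : SimpleGraph β :=
    { Adj := fun x y => G.Adj (e.symm x) (e.symm y)
      symm := ⟨fun _ _ h => h.symm⟩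
      loopless := ⟨fun x h => G.ne_of_adj h rfl⟩ }
  have hG' : G'.CliqueFree 3 := by
    intro s hs
    rw [SimpleGraph.is3Clique_iff] at hs
    obtain ⟨a, b, c, h1, h2, h3, _⟩ := hs
    exact not_triangle hG h1 h2 h3
  obtain ⟨f, hf, hi⟩ := hβ G' hG'
  have hm : StrictMono (fun x : α => e.symm (f (e x))) := by
    intro x y hxy
    exact e.symm.strictMono (hf (e.strictMono hxy))
  refine ⟨Set.range (fun x : α => e.symm (f (e x))), ?_, ⟨hm.orderIso _⟩⟩
  rintro _ ⟨x, rfl⟩ _ ⟨y, rfl⟩ _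
  exact hi _ _

/-- transfer of a graph without independent copy -/
theorem transfer_neg {α β : Type} [LinearOrder α] [LinearOrder β] (e : α ≃o β)
    (G : SimpleGraph β) (hG : G.CliqueFree 4)
    (hβ : ∀ f : β → β, StrictMono f → ∃ x y, G.Adj (f x) (f y)) :
    ∃ G : SimpleGraph α, G.CliqueFree 4 ∧ ¬ ∃ S : Set α, G.IsIndepSet S ∧ Nonempty (α ≃o S) := by
  refine ⟨G.comap e, ?_, ?_⟩
  · intro s hs
    refine hG (s.map e.toEquiv.toEmbedding) ⟨?_, by rw [Finset.card_map]; exact hs.2⟩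
    rw [SimpleGraph.isClique_iff]
    intro x hx y hy hne
    simp only [Finset.coe_map, Set.mem_image, Finset.mem_coe] at hx hy
    obtain ⟨x', hx', rfl⟩ := hx
    obtain ⟨y', hy', rfl⟩ := hy
    exact hs.1 hx' hy' (fun h => hne (by rw [h]))
  · rintro ⟨S, hS, ⟨i⟩⟩
    have hm : StrictMono (fun x : β => e (i (e.symm x)).1) := by
      intro x y hxy
      exact e.strictMono (i.strictMono (e.symm.strictMono hxy))
    obtain ⟨x, y, hadj⟩ := hβ _ hm
    have hne : (i (e.symm x)).1 ≠ (i (e.symm y)).1 := by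
      intro h
      apply G.ne_of_adj hadj
      show e (i (e.symm x)).1 = e (i (e.symm y)).1
      rw [h]
    exact hS (i (e.symm x)).2 (i (e.symm y)).2 hne hadj

/-- the final statement, from the three chapters -/
theorem final_of (hF : FusionT) (hJ : JoinT) (hU : UnavT) :
    ∃ α : Ordinal.{0}, α = Ordinal.omega0 ^ (Ordinal.omega0 ^ (Ordinal.omega0 * 2)) ∧
      (∀ G : SimpleGraph α.ToType, G.CliqueFree 3 →
        ∃ S : Set α.ToType, G.IsIndepSet S ∧ Nonempty (α.ToType ≃o S)) ∧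
      ∃ G : SimpleGraph α.ToType, G.CliqueFree 4 ∧
        ¬ ∃ S : Set α.ToType, G.IsIndepSet S ∧ Nonempty (α.ToType ≃o S) := by
  refine ⟨_, rfl, ?_, ?_⟩
  · obtain ⟨e⟩ := iso_V (α := (Ordinal.omega0 ^ (Ordinal.omega0 ^ (Ordinal.omega0 * 2)) :
      Ordinal.{0}).ToType) (Ordinal.type_toType _)
    exact transfer_pos e.symm (positive hF hJ)
  · obtain ⟨e⟩ := iso_V (α := (Ordinal.omega0 ^ (Ordinal.omega0 ^ (Ordinal.omega0 * 2)) :
      Ordinal.{0}).ToType) (Ordinal.type_toType _)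
    obtain ⟨i⟩ := V_iso_VI hF
    exact transfer_neg (e.symm.trans i) GI GI_cliqueFree hU

end Pool.Agent.H90.Ord
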