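import Pool.Agent.H11.OT.Fin1
import Pool.Agent.H90.Ord.STMain
import Pool.Agent.H90.Ord.FUS
import Pool.Agent.H11.JN.TI
import Pool.Agent.H80.JN.Ty1

/-!
# Assembly: the status theorem and the joint plays give `JoinT`
-/

set_option autoImplicit false

namespace Pool.Agent.H90.Ord

theorem joinT : JoinT := by
  intro red h
  rcases status red h with h | ⟨h1, h2, h3⟩ | h | ⟨h1, h2⟩ | ⟨h1, h2, h3⟩
  · exact joinT0 h
  · exact joinI h1 h2 h3
  · exact joinR h
  · exact join2 h1 h2
  · exact join1 h1 h2 h3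

theorem fusionT : FusionT := fun red h => fusion red h

/-- the positive relation on `V` -/
theorem positive_V (G : SimpleGraph V) (hG : G.CliqueFree 3) :
    ∃ f : V → V, StrictMono f ∧ ∀ x y, ¬ G.Adj (f x) (f y) := positive fusionT joinT G hG

/-- `V` and `VI` have the same order type -/
theorem V_iso_VI' : Nonempty (V ≃o VI) := V_iso_VI fusionT

/-- the final statement, from unavoidability -/
theorem final_of_unav (hU : UnavT) :
    ∃ α : Ordinal.{0}, α = Ordinal.omega0 ^ (Ordinal.omega0 ^ (Ordinal.omega0 * 2)) ∧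
      (∀ G : SimpleGraph α.ToType, G.CliqueFree 3 →
        ∃ S : Set α.ToType, G.IsIndepSet S ∧ Nonempty (α.ToType ≃o S)) ∧
      ∃ G : SimpleGraph α.ToType, G.CliqueFree 4 ∧
        ¬ ∃ S : Set α.ToType, G.IsIndepSet S ∧ Nonempty (α.ToType ≃o S) :=
  final_of fusionT joinT hU

end Pool.Agent.H90.Ord
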