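import Pool.Agent.H90.Ord.WO

/-!
# Order types of the sets of runs: products

`T s` is the order type of `Run s` (lexicographic order); `T [] = 1`, `T (s ++ t) = T t * T s`,
`T (replicate N l) = T [l] ^ N`.
-/

set_option autoImplicit false

namespace Pool.Agent.H90.Ord

open Ordinal

instance instWFRun (s : List Lev) : WellFoundedLT (Run s) := by
  constructor
  rw [WellFounded.wellFounded_iff_has_min]
  intro S hS
  obtain ⟨r, hr, hmin⟩ := exists_least s (Subtype.val '' S) (by rintro _ ⟨x, _, rfl⟩; exact x.2)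
    (hS.image _)
  obtain ⟨x, hx, rfl⟩ := hr
  exact ⟨x, hx, fun y hy hlt => absurd (hmin y.1 ⟨y, hy, rfl⟩) (not_le.2 hlt)⟩

/-- the order type of the set of complete runs from `s` -/
noncomputable def T (s : List Lev) : Ordinal.{0} := typeLT (Run s)

/-- comparison of order types of sets of runs by strictly monotone maps -/
theorem T_le_of_emb {s t : List Lev} (h : Emb (Run s) (Run t)) : T s ≤ T t := by
  obtain ⟨g, hg, hlt⟩ := h
  have hm : StrictMono (fun r : Run s => (⟨g r.1, hg r.1 r.2⟩ : Run t)) := by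
    intro a b hab
    exact hlt a.1 a.2 b.1 b.2 hab
  exact (RelEmbedding.ofMonotone (r := ((· < ·) : Run s → Run s → Prop))
    (s := ((· < ·) : Run t → Run t → Prop)) _ (fun a b hab => hm hab)).ordinal_type_le

theorem T_nil : T [] = 1 := by
  have hu : Unique (Run []) := by
    rw [run_nil]
    exact Set.uniqueSingleton []
  exact Ordinal.type_eq_one_of_unique _

theorem T_append (s t : List Lev) : T (s ++ t) = T t * T s := by
  have hsplit : ∀ r : Run (s ++ t), ∃ p : Run s × Run t, r.1 = p.1.1 ++ p.2.1 := by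
    intro r
    obtain ⟨r1, h1, r2, h2, h⟩ := run_append.1 r.2
    exact ⟨(⟨r1, h1⟩, ⟨r2, h2⟩), h⟩
  choose sp hsp using hsplit
  have hmono : ∀ p q : Run s × Run t, Prod.Lex (· < ·) (· < ·) p q →
      p.1.1 ++ p.2.1 < q.1.1 ++ q.2.1 := by
    intro p q h
    rcases Prod.lex_def.1 h with h | ⟨he, h⟩
    · exact run_lt_append p.1.2 q.1.2 h _ _
    · rw [he]
      exact (append_lt_append_left _).2 h
  have hle1 : T t * T s ≤ T (s ++ t) := by
    unfold T
    rw [← Ordinal.type_prod_lex]
    refine (RelEmbedding.ofMonotone (fun p : Run s × Run t =>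
      (⟨p.1.1 ++ p.2.1, run_append.2 ⟨_, p.1.2, _, p.2.2, rfl⟩⟩ : Run (s ++ t))) ?_).ordinal_type_le
    intro a b h
    exact hmono a b h
  have hle2 : T (s ++ t) ≤ T t * T s := by
    unfold T
    rw [← Ordinal.type_prod_lex]
    refine (RelEmbedding.ofMonotone sp ?_).ordinal_type_le
    intro a b hab
    rcases trichotomous_of (Prod.Lex (fun x y : Run s => x < y) (fun x y : Run t => x < y))
      (sp a) (sp b) with h | h | h
    · exact h
    · exfalso
      have h1 := hsp a
      rw [h, ← hsp b] at h1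
      exact absurd hab (by rw [Subtype.ext h1]; exact lt_irrefl _)
    · exfalso
      have h1 := hmono _ _ h
      rw [← hsp a, ← hsp b] at h1
      exact lt_asymm hab h1
  exact le_antisymm hle2 hle1

theorem T_replicate (l : Lev) (N : ℕ) : T (List.replicate N l) = T [l] ^ N := by
  induction N with
  | zero => simpa using T_nil
  | succ N ih =>
      have h : List.replicate (N + 1) l = [l] ++ List.replicate N l := rfl
      rw [h, T_append, ih, pow_succ]

theorem T_inn_zero : T [Lev.inn 0] = ω := by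
  have h1 : ∀ n : ℕ, [n] ∈ Run [Lev.inn 0] := by
    intro n
    rw [run_cons]
    refine ⟨n, [], rfl, ?_⟩
    show [] ∈ Run []
    rw [run_nil]
    rfl
  have h2 : ∀ r ∈ Run [Lev.inn 0], ∃ n : ℕ, r = [n] := by
    intro r hr
    obtain ⟨n, r', rfl, h⟩ := run_cons.1 hr
    have h' : r' ∈ Run [] := h
    rw [run_nil] at h'
    rw [Set.mem_singleton_iff.1 h']
    exact ⟨n, rfl⟩
  have hlt : ∀ m n : ℕ, m < n → ([m] : List ℕ) < [n] := by
    intro m n h
    exact List.Lex.rel h
  apply le_antisymm
  · rw [← Ordinal.type_nat_lt]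
    refine (RelEmbedding.ofMonotone (r := ((· < ·) : Run [Lev.inn 0] → Run [Lev.inn 0] → Prop))
      (fun r : Run [Lev.inn 0] => r.1.headD 0) ?_).ordinal_type_le
    intro a b hab
    obtain ⟨m, hm⟩ := h2 a.1 a.2
    obtain ⟨n, hn⟩ := h2 b.1 b.2
    have hab' : a.1 < b.1 := hab
    rw [hm, hn] at hab'
    show a.1.headD 0 < b.1.headD 0
    rw [hm, hn]
    show m < n
    by_contra hcon
    rcases Nat.lt_or_ge n m with h | h
    · exact lt_asymm (hlt n m h) hab'
    · have : m = n := by omega
      rw [this] at hab'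
      exact lt_irrefl _ hab'
  · rw [← Ordinal.type_nat_lt]
    refine (RelEmbedding.ofMonotone (s := ((· < ·) : Run [Lev.inn 0] → Run [Lev.inn 0] → Prop))
      (fun n : ℕ => (⟨[n], h1 n⟩ : Run [Lev.inn 0])) ?_).ordinal_type_le
    intro a b hab
    exact hlt a b hab

end Pool.Agent.H90.Ord
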