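import Pool.Agent.H11.OT.OT1

/-!
# Order types of the sets of runs: sums, and the order type of `V`

`T [l]` is the sum of the `T (kidsLev l N)`; the levels `inn k`, `out k`, `root` have order types
`ω^(ω^k)`, `ω^(ω^(ω+k))`, `ω^(ω^(ω·2))`.
-/

set_option autoImplicit false

namespace Pool.Agent.H90.Ord

open Ordinal

theorem single_mem {l : Lev} {r : List ℕ} (h : r ∈ Run [l]) :
    ∃ n r', r = n :: r' ∧ r' ∈ Run (kidsLev l n) := by
  obtain ⟨n, r', h1, h2⟩ := run_cons.1 h
  rw [List.append_nil] at h2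
  exact ⟨n, r', h1, h2⟩

theorem cons_mem {l : Lev} {n : ℕ} {r : List ℕ} (h : r ∈ Run (kidsLev l n)) :
    n :: r ∈ Run [l] := by
  rw [run_cons]
  refine ⟨n, r, rfl, ?_⟩
  rw [List.append_nil]
  exact h

theorem cons_lt {n : ℕ} {r r' : List ℕ} : n :: r < n :: r' ↔ r < r' := by
  simpa using append_lt_append_left [n] (q := r) (q' := r')

theorem T_kids_le (l : Lev) (N : ℕ) : T (kidsLev l N) ≤ T [l] :=
  T_le_of_emb ⟨fun r => N :: r, fun _ hr => cons_mem hr, fun _ _ _ _ h => cons_lt.2 h⟩

/-- the runs with first number smaller than `N` -/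
def blk (l : Lev) (N : ℕ) : Set (Run [l]) := {r | r.1.headD 0 < N}

theorem blk_succ (l : Lev) (N : ℕ) :
    typeLT (blk l (N + 1)) ≤ typeLT (blk l N) + T (kidsLev l N) := by
  have hmap : ∀ r : blk l (N + 1), ∃ p : (blk l N) ⊕ (Run (kidsLev l N)),
      (∀ q, p = Sum.inl q → q.1 = r.1) ∧ (∀ q, p = Sum.inr q → r.1.1 = N :: q.1) := by
    intro r
    by_cases h : r.1.1.headD 0 < N
    · refine ⟨Sum.inl ⟨r.1, h⟩, ?_, ?_⟩
      · intro q hq
        rw [← Sum.inl.inj hq]
      · intro q hq
        cases hq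
    · obtain ⟨n, r', h1, h2⟩ := single_mem r.1.2
      have h3 : r.1.1.headD 0 < N + 1 := r.2
      have hn : n = N := by
        rw [h1] at h h3
        simp only [List.headD_cons] at h h3
        omega
      subst hn
      refine ⟨Sum.inr ⟨r', h2⟩, ?_, ?_⟩
      · intro q hq
        cases hq
      · intro q hq
        rw [← Sum.inr.inj hq]
        exact h1
  choose f hf1 hf2 using hmap
  unfold T
  rw [← Ordinal.type_sum_lex]
  refine (RelEmbedding.ofMonotone f ?_).ordinal_type_le
  intro a b hab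
  have hab' : a.1.1 < b.1.1 := hab
  rcases ha : f a with p | p
  · rcases hb : f b with q | q
    · rw [Sum.lex_inl_inl]
      have h1 := hf1 a p ha
      have h2 := hf1 b q hb
      show p.1 < q.1
      rw [h1, h2]
      exact hab
    · exact Sum.Lex.sep _ _
  · rcases hb : f b with q | q
    · exfalso
      have h1 := hf2 a p ha
      have h2 := hf1 b q hb
      have h3 : q.1.1.headD 0 < N := q.2
      rw [h2] at h3
      obtain ⟨n, r', h4, _⟩ := single_mem b.1.2
      rw [h4] at h3 hab'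
      rw [h1] at hab'
      simp only [List.headD_cons] at h3
      have h5 : n :: r' < N :: p.1 := List.Lex.rel h3
      exact lt_asymm hab' h5
    · rw [Sum.lex_inr_inr]
      have h1 := hf2 a p ha
      have h2 := hf2 b q hb
      rw [h1, h2] at hab'
      exact cons_lt.1 hab'

theorem blk_lt {l : Lev} {τ : Ordinal.{0}} (h0 : 0 < τ) (hτ : IsPrincipal (· + ·) τ)
    (hlt : ∀ N, T (kidsLev l N) < τ) (N : ℕ) : typeLT (blk l N) < τ := by
  induction N with
  | zero =>
      have he : IsEmpty (blk l 0) := ⟨fun r => absurd r.2 (Nat.not_lt_zero _)⟩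
      have : typeLT (blk l 0) = 0 := Ordinal.type_eq_zero_iff_isEmpty.2 he
      rw [this]
      exact h0
  | succ N ih => exact lt_of_le_of_lt (blk_succ l N) (hτ ih (hlt N))

theorem T_single {l : Lev} {τ : Ordinal.{0}} (h0 : 0 < τ) (hτ : IsPrincipal (· + ·) τ)
    (hlt : ∀ N, T (kidsLev l N) < τ) (hcof : ∀ σ < τ, ∃ N, σ < T (kidsLev l N)) : T [l] = τ := by
  apply le_antisymm
  · by_contra hcon
    rw [not_le] at hcon
    obtain ⟨r, hr⟩ := Ordinal.typein_surj (fun x y : Run [l] => x < y) hcon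
    have h1 : typein (fun x y : Run [l] => x < y) r ≤ typeLT (blk l (r.1.headD 0 + 1)) := by
      rw [← Ordinal.type_subrel]
      have hmem : ∀ x : {x : Run [l] // x < r}, x.1 ∈ blk l (r.1.headD 0 + 1) := by
        intro x
        show x.1.1.headD 0 < r.1.headD 0 + 1
        obtain ⟨n, q, h1, _⟩ := single_mem x.1.2
        obtain ⟨m, q', h2, _⟩ := single_mem r.2
        have hx : x.1.1 < r.1 := x.2
        rw [h1, h2] at hx ⊢
        simp only [List.headD_cons]
        by_contra hcon2
        have h3 : m :: q' < n :: q := List.Lex.rel (by omega)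
        exact lt_asymm hx h3
      refine (RelEmbedding.ofMonotone (fun x => (⟨x.1, hmem x⟩ : blk l (r.1.headD 0 + 1))) ?_).ordinal_type_le
      intro a b hab
      exact hab
    rw [hr] at h1
    exact absurd (blk_lt h0 hτ hlt _) (not_lt.2 h1)
  · by_contra hcon
    rw [not_le] at hcon
    obtain ⟨N, hN⟩ := hcof _ hcon
    exact absurd (T_kids_le l N) (not_le.2 hN)

/-- the ordinal of a level -/
noncomputable def lev : Lev → Ordinal.{0}
  | .inn k => k
  | .out k => ω + k
  | .root => ω * 2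

theorem pow_lt_next (a : Ordinal.{0}) (N : ℕ) : (ω ^ ω ^ a) ^ N < ω ^ ω ^ (a + 1) := by
  rw [← Ordinal.opow_natCast, ← Ordinal.opow_mul, Ordinal.opow_lt_opow_iff_right one_lt_omega0,
    Ordinal.opow_add, Ordinal.opow_one]
  exact mul_lt_mul_of_pos_left (natCast_lt_omega0 N) (Ordinal.opow_pos _ omega0_pos)

theorem cof_next (a : Ordinal.{0}) {σ : Ordinal.{0}} (h : σ < ω ^ ω ^ (a + 1)) :
    ∃ N : ℕ, σ < (ω ^ ω ^ a) ^ N := by
  have hlim : Order.IsSuccLimit (ω ^ (a + 1) : Ordinal.{0}) :=
    isSuccLimit_opow_left isSuccLimit_omega0 (by simp)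
  obtain ⟨c, hc, hσ⟩ := (lt_opow_of_isSuccLimit omega0_ne_zero hlim).1 h
  rw [Ordinal.opow_add, Ordinal.opow_one] at hc
  obtain ⟨d, hd, hc'⟩ := (lt_mul_iff_of_isSuccLimit isSuccLimit_omega0).1 hc
  obtain ⟨N, rfl⟩ := lt_omega0.1 hd
  refine ⟨N, hσ.trans_le ?_⟩
  rw [← Ordinal.opow_natCast, ← Ordinal.opow_mul]
  exact Ordinal.opow_le_opow_right omega0_pos hc'.le

theorem cof_add (a : Ordinal.{0}) {σ : Ordinal.{0}} (h : σ < ω ^ ω ^ (a + ω)) :
    ∃ N : ℕ, σ < ω ^ ω ^ (a + N) := by
  have hlim0 : Order.IsSuccLimit (a + ω : Ordinal.{0}) := isSuccLimit_add a isSuccLimit_omega0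
  have hlim : Order.IsSuccLimit (ω ^ (a + ω) : Ordinal.{0}) :=
    isSuccLimit_opow one_lt_omega0 hlim0
  obtain ⟨c, hc, hσ⟩ := (lt_opow_of_isSuccLimit omega0_ne_zero hlim).1 h
  obtain ⟨d, hd, hc'⟩ := (lt_opow_of_isSuccLimit omega0_ne_zero hlim0).1 hc
  obtain ⟨e, he, hd'⟩ := (lt_add_iff_of_isSuccLimit isSuccLimit_omega0).1 hd
  obtain ⟨N, rfl⟩ := lt_omega0.1 he
  refine ⟨N, hσ.trans_le (Ordinal.opow_le_opow_right omega0_pos (hc'.le.trans
    (Ordinal.opow_le_opow_right omega0_pos hd'.le)))⟩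

theorem T_inn (k : ℕ) : T [Lev.inn k] = ω ^ ω ^ (k : Ordinal.{0}) := by
  induction k with
  | zero =>
      rw [T_inn_zero]
      simp
  | succ k ih =>
      refine T_single (Ordinal.opow_pos _ omega0_pos) (isPrincipal_add_omega0_opow _) ?_ ?_
      · intro N
        show T (List.replicate N (Lev.inn k)) < _
        rw [T_replicate, ih]
        push_cast
        exact pow_lt_next _ N
      · intro σ hσ
        push_cast at hσ
        obtain ⟨N, hN⟩ := cof_next _ hσ
        refine ⟨N, ?_⟩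
        show _ < T (List.replicate N (Lev.inn k))
        rw [T_replicate, ih]
        exact hN

theorem T_out (k : ℕ) : T [Lev.out k] = ω ^ ω ^ (ω + (k : Ordinal.{0})) := by
  induction k with
  | zero =>
      refine T_single (Ordinal.opow_pos _ omega0_pos) (isPrincipal_add_omega0_opow _) ?_ ?_
      · intro N
        show T [Lev.inn N] < _
        rw [T_inn]
        push_cast
        rw [add_zero, Ordinal.opow_lt_opow_iff_right one_lt_omega0,
          Ordinal.opow_lt_opow_iff_right one_lt_omega0]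
        exact natCast_lt_omega0 N
      · intro σ hσ
        have hσ' : σ < ω ^ ω ^ ((0 : Ordinal.{0}) + ω) := by simpa using hσ
        obtain ⟨N, hN⟩ := cof_add _ hσ'
        refine ⟨N, ?_⟩
        show _ < T [Lev.inn N]
        rw [T_inn]
        simpa using hN
  | succ k ih =>
      refine T_single (Ordinal.opow_pos _ omega0_pos) (isPrincipal_add_omega0_opow _) ?_ ?_
      · intro N
        show T (List.replicate N (Lev.out k)) < _
        rw [T_replicate, ih]
        push_cast
        rw [← add_assoc]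
        exact pow_lt_next _ N
      · intro σ hσ
        push_cast at hσ
        rw [← add_assoc] at hσ
        obtain ⟨N, hN⟩ := cof_next _ hσ
        refine ⟨N, ?_⟩
        show _ < T (List.replicate N (Lev.out k))
        rw [T_replicate, ih]
        exact hN

theorem T_root : T [Lev.root] = ω ^ ω ^ (ω * (2 : Ordinal.{0})) := by
  have h2 : (ω * 2 : Ordinal.{0}) = ω + ω := by
    rw [← one_add_one_eq_two, mul_add, mul_one]
  rw [h2]
  refine T_single (Ordinal.opow_pos _ omega0_pos) (isPrincipal_add_omega0_opow _) ?_ ?_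
  · intro N
    show T [Lev.out N] < _
    rw [T_out, Ordinal.opow_lt_opow_iff_right one_lt_omega0,
      Ordinal.opow_lt_opow_iff_right one_lt_omega0]
    exact (add_lt_add_iff_left _).2 (natCast_lt_omega0 N)
  · intro σ hσ
    obtain ⟨N, hN⟩ := cof_add _ hσ
    refine ⟨N, ?_⟩
    show _ < T [Lev.out N]
    rw [T_out]
    exact hN

/-- the order type of `V` -/
theorem typeLT_V : typeLT V = ω ^ ω ^ (ω * (2 : Ordinal.{0})) := T_root

/-- `V` is isomorphic to every well-order of type `ω^(ω^(ω·2))` -/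
theorem iso_V {α : Type} [LinearOrder α] [WellFoundedLT α]
    (h : typeLT α = ω ^ ω ^ (ω * (2 : Ordinal.{0}))) : Nonempty (V ≃o α) := by
  have h1 : typeLT V = typeLT α := typeLT_V.trans h.symm
  obtain ⟨e⟩ := Ordinal.type_eq.1 h1
  exact ⟨OrderIso.ofRelIsoLT e⟩

end Pool.Agent.H90.Ord
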